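import Pool.Agent.Helper31.CY.St4

/-!
# Project CY (MP_9583f0_gt): module DSM, two discs are a minimal Plateau surface
-/

set_option autoImplicit false

open Set Topology Filter

namespace Pool.Agent.Helper99.CY

open Pool.Agent.Helper31.CY

private theorem cont_coord (i : Fin 3) : Continuous fun x : E3 => x i :=
  (EuclideanSpace.proj i : E3 →L[ℝ] ℝ).continuous

private theorem cont_rad : Continuous rad := by
  unfold rad
  exact Real.continuous_sqrt.comp (((cont_coord 0).pow 2).add ((cont_coord 1).pow 2))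

private theorem rad_sq (x : E3) : rad x ^ 2 = x 0 ^ 2 + x 1 ^ 2 := by
  unfold rad
  exact Real.sq_sqrt (by positivity)

private theorem rad_nonneg (x : E3) : 0 ≤ rad x := Real.sqrt_nonneg _

private theorem rad_eq {x : E3} {r : ℝ} (hr : 0 ≤ r) (h : x 0 ^ 2 + x 1 ^ 2 = r ^ 2) :
    rad x = r := by
  unfold rad
  rw [h, Real.sqrt_sq hr]

private theorem norm_sq (x : E3) : ‖x‖ ^ 2 = x 0 ^ 2 + x 1 ^ 2 + x 2 ^ 2 := by
  rw [EuclideanSpace.norm_sq_eq, Fin.sum_univ_three]
  simp only [Real.norm_eq_abs, sq_abs]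

private theorem rad_rot (θ : ℝ) (x : E3) : rad (rot θ x) = rad x := by
  have h : (rot θ x) 0 ^ 2 + (rot θ x) 1 ^ 2 = x 0 ^ 2 + x 1 ^ 2 := by
    have h0 : (rot θ x) 0 = Real.cos θ * x 0 - Real.sin θ * x 1 := by
      simp [rot, pt]
    have h1 : (rot θ x) 1 = Real.sin θ * x 0 + Real.cos θ * x 1 := by
      simp [rot, pt]
    rw [h0, h1]
    nlinarith [Real.sin_sq_add_cos_sq θ]
  unfold rad
  rw [h]

private theorem rot_two (θ : ℝ) (x : E3) : (rot θ x) 2 = x 2 := by
  simp [rot, pt]

theorem hDSM (hXR2 : StXR2) (hXB2 : StXB2) : StDSM := by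
  intro S r0 r1 h hr0 hr1 hh hS
  have hSeq : S = {x : E3 | (x 2 = 0 ∧ rad x ≤ r0) ∨ (x 2 = h ∧ rad x ≤ r1)} := by
    ext x
    exact hS x
  refine ⟨⟨?_, ?_, ?_, ?_⟩, ?_⟩
  · -- compact
    have hcl : IsClosed S := by
      rw [hSeq]
      have h1 : IsClosed {x : E3 | x 2 = 0 ∧ rad x ≤ r0} :=
        (isClosed_eq (cont_coord 2) continuous_const).inter
          (isClosed_le cont_rad continuous_const)
      have h2 : IsClosed {x : E3 | x 2 = h ∧ rad x ≤ r1} :=
        (isClosed_eq (cont_coord 2) continuous_const).inter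
          (isClosed_le cont_rad continuous_const)
      exact h1.union h2
    have hbd : S ⊆ Metric.closedBall 0 (r0 + r1 + h) := by
      intro x hx
      rw [mem_closedBall_zero_iff]
      have h1 := norm_sq x
      rw [← rad_sq] at h1
      have h2 := rad_nonneg x
      apply le_of_sq_le_sq _ (by linarith)
      rw [h1]
      rcases (hS x).1 hx with ⟨h3, h4⟩ | ⟨h3, h4⟩
      · rw [h3]
        nlinarith
      · rw [h3]
        nlinarith
    exact (isCompact_closedBall (0 : E3) (r0 + r1 + h)).of_isClosed_subset hcl hbd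
  · -- boundary in S
    rintro x (⟨hx, hx2⟩ | ⟨hx, hx2⟩)
    · exact (hS x).2 (Or.inl ⟨hx2, (rad_eq hr0.le hx).le⟩)
    · exact (hS x).2 (Or.inr ⟨hx2, (rad_eq hr1.le hx).le⟩)
  · -- interior points
    intro p hp hpΓ
    left
    rcases (hS p).1 hp with ⟨h2, h3⟩ | ⟨h2, h3⟩
    · have h4 : rad p < r0 := by
        refine lt_of_le_of_ne h3 fun h5 => hpΓ (Or.inl ⟨?_, h2⟩)
        rw [← rad_sq, h5]
      have hopen : IsOpen {x : E3 | rad x < r0 ∧ x 2 < h} :=
        (isOpen_lt cont_rad continuous_const).inter (isOpen_lt (cont_coord 2) continuous_const)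
      obtain ⟨ε, hε, hball⟩ := Metric.isOpen_iff.1 hopen p ⟨h4, by rw [h2]; exact hh⟩
      apply hXR2 S p 0 ε hε
      intro x hx
      obtain ⟨h5, h6⟩ := hball (Metric.mem_ball.2 hx)
      rw [hS]
      constructor
      · rintro (⟨h7, _⟩ | ⟨h7, _⟩)
        · exact h7
        · exact absurd h7 h6.ne
      · intro h7
        exact Or.inl ⟨h7, h5.le⟩
    · have h4 : rad p < r1 := by
        refine lt_of_le_of_ne h3 fun h5 => hpΓ (Or.inr ⟨?_, h2⟩)
        rw [← rad_sq, h5]
      have hopen : IsOpen {x : E3 | rad x < r1 ∧ 0 < x 2} :=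
        (isOpen_lt cont_rad continuous_const).inter (isOpen_lt continuous_const (cont_coord 2))
      obtain ⟨ε, hε, hball⟩ := Metric.isOpen_iff.1 hopen p ⟨h4, by rw [h2]; exact hh⟩
      apply hXR2 S p h ε hε
      intro x hx
      obtain ⟨h5, h6⟩ := hball (Metric.mem_ball.2 hx)
      rw [hS]
      constructor
      · rintro (⟨h7, _⟩ | ⟨h7, _⟩)
        · exact absurd h7 h6.ne'
        · exact h7
      · intro h7
        exact Or.inr ⟨h7, h5.le⟩
  · -- boundary points
    rintro p (⟨hp, hp2⟩ | ⟨hp, hp2⟩)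
    · have hrad : rad p = r0 := rad_eq hr0.le hp
      have hopen : IsOpen {x : E3 | x 2 < h} := isOpen_lt (cont_coord 2) continuous_const
      obtain ⟨ε, hε, hball⟩ := Metric.isOpen_iff.1 hopen p
        (show p 2 < h by rw [hp2]; exact hh)
      apply hXB2 S p ε (by rw [hp]; positivity) hε
      intro x hx
      have h6 : x 2 < h := hball (Metric.mem_ball.2 hx)
      rw [hS, hp2, hrad]
      constructor
      · rintro (h7 | ⟨h7, _⟩)
        · exact h7
        · exact absurd h7 h6.ne
      · intro h7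
        exact Or.inl h7
    · have hrad : rad p = r1 := rad_eq hr1.le hp
      have hopen : IsOpen {x : E3 | 0 < x 2} := isOpen_lt continuous_const (cont_coord 2)
      obtain ⟨ε, hε, hball⟩ := Metric.isOpen_iff.1 hopen p
        (show 0 < p 2 by rw [hp2]; exact hh)
      apply hXB2 S p ε (by rw [hp]; positivity) hε
      intro x hx
      have h6 : 0 < x 2 := hball (Metric.mem_ball.2 hx)
      rw [hS, hp2, hrad]
      constructor
      · rintro (⟨h7, _⟩ | h7)
        · exact absurd h7 h6.ne'
        · exact h7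
      · intro h7
        exact Or.inr h7
  · -- rotations
    intro θ x hx
    rw [hS, rad_rot, rot_two, ← hS]
    exact hx

end Pool.Agent.Helper99.CY
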