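import Pool.Agent.Helper31.CY.St2

/-!
# Project CY (MP_9583f0_gt): module HGT
-/

set_option autoImplicit false

open Set Topology Filter

namespace Pool.Agent.Helper99.CY

open Pool.Agent.Helper31.CY

private theorem small (hCTF : StCTF) {r : ℝ} (m : ℝ) (hr : 0 < r) {δ : ℝ} (hδ : 0 < δ) :
    ∃ η : ℝ, 0 < η ∧ η < δ ∧ |cat r m η - r| < δ ∧ |cat r m (-η) - r| < δ := by
  obtain ⟨h0, _, _, hd, _⟩ := hCTF r m hr
  have hc : ContinuousAt (cat r m) 0 := (hd 0).continuousAt
  rw [Metric.continuousAt_iff] at hc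
  obtain ⟨ε, hε, hc⟩ := hc δ hδ
  have hm : 0 < min ε δ := lt_min hε hδ
  refine ⟨min ε δ / 2, by linarith, by linarith [min_le_right ε δ], ?_, ?_⟩
  · have := @hc (min ε δ / 2) (by
      rw [Real.dist_eq, sub_zero, abs_of_pos (by linarith)]
      linarith [min_le_left ε δ])
    rwa [h0, Real.dist_eq] at this
  · have := @hc (-(min ε δ / 2)) (by
      rw [Real.dist_eq, sub_zero, abs_neg, abs_of_pos (by linarith)]
      linarith [min_le_left ε δ])
    rwa [h0, Real.dist_eq] at this

/-- near a point which is not an end point there are points of the network above it and below it, or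
to the right of it at the same height -/
private theorem esc (hCTF : StCTF) (hY3 : StY3) {N : Set (ℝ × ℝ)} {r0 r1 h : ℝ}
    (hN : Net N r0 r1 h) {q : ℝ × ℝ} (hq : q ∈ N) (hq0 : q ≠ (r0, 0)) (hq1 : q ≠ (r1, h))
    {ε : ℝ} (hε : 0 < ε) :
    (∃ x ∈ box q ε, x ∈ N ∧ (q.2 < x.2 ∨ (x.2 = q.2 ∧ q.1 < x.1))) ∧
      ∃ x ∈ box q ε, x ∈ N ∧ (x.2 < q.2 ∨ (x.2 = q.2 ∧ q.1 < x.1)) := by
  obtain ⟨a, t⟩ := q
  rcases (hN.nn _ hq).lt_or_eq with hpos | hzero
  · have hpos' : 0 < a := hpos
    rcases hN.int _ hq hq0 hq1 hpos with ⟨m, ε', hε', hx⟩ | ⟨ε', hε', hx⟩ | ⟨v, hv1, hv0, ε', hε', hx⟩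
    · obtain ⟨η, hη, hηδ, h1, h2⟩ := small hCTF m hpos' (lt_min hε hε')
      have hη1 := lt_of_lt_of_le hηδ (min_le_left ε ε')
      have hη2 := lt_of_lt_of_le hηδ (min_le_right ε ε')
      constructor
      · refine ⟨(cat a m η, t + η), ⟨lt_of_lt_of_le h1 (min_le_left _ _), ?_⟩, ?_, Or.inl ?_⟩
        · change |t + η - t| < ε
          rw [add_sub_cancel_left, abs_of_pos hη]
          exact hη1
        · refine (hx _ ⟨lt_of_lt_of_le h1 (min_le_right _ _), ?_⟩).2 ?_
          · change |t + η - t| < ε'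
            rw [add_sub_cancel_left, abs_of_pos hη]
            exact hη2
          · change cat a m η = cat a m (t + η - t)
            rw [add_sub_cancel_left]
        · change t < t + η
          linarith
      · refine ⟨(cat a m (-η), t + -η), ⟨lt_of_lt_of_le h2 (min_le_left _ _), ?_⟩, ?_, Or.inl ?_⟩
        · change |t + -η - t| < ε
          rw [add_sub_cancel_left, abs_neg, abs_of_pos hη]
          exact hη1
        · refine (hx _ ⟨lt_of_lt_of_le h2 (min_le_right _ _), ?_⟩).2 ?_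
          · change |t + -η - t| < ε'
            rw [add_sub_cancel_left, abs_neg, abs_of_pos hη]
            exact hη2
          · change cat a m (-η) = cat a m (t + -η - t)
            rw [add_sub_cancel_left]
        · change t + -η < t
          linarith
    · have hm : 0 < min ε ε' := lt_min hε hε'
      have hb : ∀ δ : ℝ, min ε ε' ≤ δ → (a + min ε ε' / 2, t) ∈ box (a, t) δ := by
        intro δ hδ
        refine ⟨?_, ?_⟩
        · change |a + min ε ε' / 2 - a| < δ
          rw [add_sub_cancel_left, abs_of_pos (by linarith)]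
          linarith
        · change |t - t| < δ
          rw [sub_self, abs_zero]
          linarith
      have hmem : (a + min ε ε' / 2, t) ∈ N := (hx _ (hb ε' (min_le_right _ _))).2 rfl
      have hlt : a < a + min ε ε' / 2 := by linarith
      exact ⟨⟨_, hb ε (min_le_left _ _), hmem, Or.inr ⟨rfl, hlt⟩⟩,
        ⟨_, hb ε (min_le_left _ _), hmem, Or.inr ⟨rfl, hlt⟩⟩⟩
    · obtain ⟨⟨i, hi⟩, ⟨j, hj⟩, _⟩ := hY3 v hv1 hv0
      constructor
      · obtain ⟨η, hη, hηδ, h1, _⟩ := small hCTF ((v i).1 / (v i).2) hpos' (lt_min hε hε')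
        have hη1 := lt_of_lt_of_le hηδ (min_le_left ε ε')
        have hη2 := lt_of_lt_of_le hηδ (min_le_right ε ε')
        refine ⟨(cat a ((v i).1 / (v i).2) η, t + η),
          ⟨lt_of_lt_of_le h1 (min_le_left _ _), ?_⟩, ?_, Or.inl ?_⟩
        · change |t + η - t| < ε
          rw [add_sub_cancel_left, abs_of_pos hη]
          exact hη1
        · refine (hx _ ⟨lt_of_lt_of_le h1 (min_le_right _ _), ?_⟩).2 ⟨i, Or.inl ⟨hi, ?_, ?_⟩⟩
          · change |t + η - t| < ε'
            rw [add_sub_cancel_left, abs_of_pos hη]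
            exact hη2
          · change t ≤ t + η
            linarith
          · change cat a ((v i).1 / (v i).2) η = cat a ((v i).1 / (v i).2) (t + η - t)
            rw [add_sub_cancel_left]
        · change t < t + η
          linarith
      · obtain ⟨η, hη, hηδ, _, h2⟩ := small hCTF ((v j).1 / (v j).2) hpos' (lt_min hε hε')
        have hη1 := lt_of_lt_of_le hηδ (min_le_left ε ε')
        have hη2 := lt_of_lt_of_le hηδ (min_le_right ε ε')
        refine ⟨(cat a ((v j).1 / (v j).2) (-η), t + -η),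
          ⟨lt_of_lt_of_le h2 (min_le_left _ _), ?_⟩, ?_, Or.inl ?_⟩
        · change |t + -η - t| < ε
          rw [add_sub_cancel_left, abs_neg, abs_of_pos hη]
          exact hη1
        · refine (hx _ ⟨lt_of_lt_of_le h2 (min_le_right _ _), ?_⟩).2
            ⟨j, Or.inr (Or.inl ⟨hj, ?_, ?_⟩)⟩
          · change |t + -η - t| < ε'
            rw [add_sub_cancel_left, abs_neg, abs_of_pos hη]
            exact hη2
          · change t + -η ≤ t
            linarith
          · change cat a ((v j).1 / (v j).2) (-η) = cat a ((v j).1 / (v j).2) (t + -η - t)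
            rw [add_sub_cancel_left]
        · change t + -η < t
          linarith
  · have hz : a = 0 := hzero.symm
    subst hz
    obtain ⟨ε', hε', hx⟩ := hN.ax t hq
    have hm : 0 < min ε ε' := lt_min hε hε'
    have hb : ∀ δ : ℝ, min ε ε' ≤ δ → (min ε ε' / 2, t) ∈ box (0, t) δ := by
      intro δ hδ
      refine ⟨?_, ?_⟩
      · change |min ε ε' / 2 - 0| < δ
        rw [sub_zero, abs_of_pos (by linarith)]
        linarith
      · change |t - t| < δ
        rw [sub_self, abs_zero]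
        linarith
    have hlt : (0 : ℝ) < min ε ε' / 2 := by linarith
    have hmem : (min ε ε' / 2, t) ∈ N := (hx _ (hb ε' (min_le_right _ _)) hlt.le).2 rfl
    exact ⟨⟨_, hb ε (min_le_left _ _), hmem, Or.inr ⟨rfl, hlt⟩⟩,
      ⟨_, hb ε (min_le_left _ _), hmem, Or.inr ⟨rfl, hlt⟩⟩⟩

/-- a point of `K` with largest value of a continuous function, and the rightmost one among them -/
private theorem top_right {K : Set (ℝ × ℝ)} (hK : IsCompact K) (hne : K.Nonempty)
    (φ : ℝ × ℝ → ℝ) (hφ : Continuous φ) :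
    ∃ q ∈ K, (∀ x ∈ K, φ x ≤ φ q) ∧ ∀ x ∈ K, φ x = φ q → x.1 ≤ q.1 := by
  obtain ⟨p, hp, hmax⟩ := hK.exists_isMaxOn hne hφ.continuousOn
  have hK' : IsCompact (K ∩ {x | φ x = φ p}) :=
    hK.inter_right (isClosed_eq hφ continuous_const)
  obtain ⟨q, hq, hmax'⟩ := hK'.exists_isMaxOn ⟨p, hp, rfl⟩ continuous_fst.continuousOn
  have hqp : φ q = φ p := hq.2
  refine ⟨q, hq.1, fun x hx => ?_, fun x hx hxq => ?_⟩
  · rw [hqp]
    exact hmax hx
  · have h1 : φ x = φ p := by rw [hxq, hqp]
    exact hmax' (show x ∈ K ∩ {x | φ x = φ p} from ⟨hx, h1⟩)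

theorem hHGT (hCTF : StCTF) (hY3 : StY3) : StHGT := by
  intro N r0 r1 h hN K X hK hne hKN hloc
  constructor
  · obtain ⟨q, hq, h1, h2⟩ := top_right hK hne (fun x => x.2) continuous_snd
    refine ⟨q, hq, ?_, h1, h2⟩
    by_contra hX
    obtain ⟨hq0, hq1, ε, hε, hbox⟩ := hloc q hq hX
    obtain ⟨⟨x, hxb, hxN, hx⟩, _⟩ := esc hCTF hY3 hN (hKN hq) hq0 hq1 hε
    have hxK := hbox x hxb hxN
    rcases hx with hx | ⟨hx, hx'⟩
    · exact absurd (h1 x hxK) (not_le.2 hx)
    · exact absurd (h2 x hxK hx) (not_le.2 hx')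
  · obtain ⟨q, hq, h1, h2⟩ := top_right hK hne (fun x => -x.2) continuous_snd.neg
    have h1' : ∀ x ∈ K, q.2 ≤ x.2 := fun x hx => neg_le_neg_iff.1 (h1 x hx)
    have h2' : ∀ x ∈ K, x.2 = q.2 → x.1 ≤ q.1 := fun x hx hxq => h2 x hx (congrArg Neg.neg hxq)
    refine ⟨q, hq, ?_, h1', h2'⟩
    by_contra hX
    obtain ⟨hq0, hq1, ε, hε, hbox⟩ := hloc q hq hX
    obtain ⟨_, ⟨x, hxb, hxN, hx⟩⟩ := esc hCTF hY3 hN (hKN hq) hq0 hq1 hε
    have hxK := hbox x hxb hxN
    rcases hx with hx | ⟨hx, hx'⟩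
    · exact absurd (h1' x hxK) (not_le.2 hx)
    · exact absurd (h2' x hxK hx) (not_le.2 hx')

end Pool.Agent.Helper99.CY
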